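import Pool.Agent.helper36.YB.Spec
import Pool.Agent.helper99.BP.HSF

/-! # yb:SMF, the smooth factor -/

set_option autoImplicit false

open Finset
open Pool.Agent.FI Pool.Agent.HK Pool.Agent.BP
open Pool.Agent.CH (nit rgh ll2)
open Pool.Agent.SK (tr0 Th)

noncomputable section

namespace Pool.Agent.YB

private theorem SMF_smt {Z : ℝ} {a b : ℕ} : smt Z (a * b) ↔ smt Z a ∧ smt Z b := by
  unfold smt
  constructor
  · intro h
    exact ⟨fun p hp hd => h p hp (Dvd.dvd.mul_right hd b), fun p hp hd => h p hp (Dvd.dvd.mul_left hd a)⟩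
  · rintro ⟨h1, h2⟩ p hp hd
    rcases (hp.dvd_mul).1 hd with h | h
    · exact h1 p hp h
    · exact h2 p hp h

open scoped Classical in
/-- `sm` is the inverse of `ms` -/
private theorem SMF_inv {Z : ℝ} {g : ℕ → ℂ} (hg : CM g) : HSF_af (ms Z g) * HSF_af (sm Z g) = 1 := by
  ext n
  by_cases hn : n = 0
  · subst hn
    rw [ArithmeticFunction.map_zero, ArithmeticFunction.map_zero]
  rw [HSF_cv]
  unfold cv
  have h1 : ∑ d ∈ n.divisorsAntidiagonal, ms Z g d.1 * sm Z g d.2 =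
      ∑ d ∈ n.divisorsAntidiagonal, (((ArithmeticFunction.moebius d.1 : ℤ) : ℂ) * (if smt Z n then g n else 0)) := by
    refine Finset.sum_congr rfl fun d hd => ?_
    obtain ⟨hd1, _⟩ := Nat.mem_divisorsAntidiagonal.1 hd
    have hms : ms Z g d.1 = if smt Z d.1 then mg g d.1 else 0 := rfl
    rw [hms]
    unfold sm mg
    by_cases hc : smt Z d.1 ∧ smt Z d.2
    · rw [if_pos hc.1, if_pos hc.2, ← hd1, if_pos (SMF_smt.2 hc), hg.2.2.1]
      ring
    · rw [← hd1, if_neg (fun h => hc (SMF_smt.1 h)), mul_zero]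
      rw [not_and_or] at hc
      rcases hc with h | h
      · rw [if_neg h, zero_mul]
      · rw [if_neg h, mul_zero]
  have h2 : ∑ d ∈ n.divisorsAntidiagonal, (((ArithmeticFunction.moebius d.1 : ℤ) : ℂ) * (if smt Z n then g n else 0)) =
      ((∑ d ∈ n.divisors, (ArithmeticFunction.moebius d : ℤ) : ℤ) : ℂ) * (if smt Z n then g n else 0) := by
    rw [← Finset.sum_mul, Nat.sum_divisorsAntidiagonal (n := n) (fun a _ => ((ArithmeticFunction.moebius a : ℤ) : ℂ))]
    push_cast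
    rfl
  rw [h1, h2, ← ArithmeticFunction.coe_mul_zeta_apply, ArithmeticFunction.moebius_mul_coe_zeta, ArithmeticFunction.one_apply,
    ArithmeticFunction.one_apply]
  by_cases h : n = 1
  · rw [if_pos h, if_pos h, h, if_pos, hg.2.1]
    · simp
    · intro p hp hd
      exact absurd (Nat.dvd_one.1 hd) hp.one_lt.ne'
  · rw [if_neg h, if_neg h]
    simp

private theorem SMF_mg {Z : ℝ} {g : ℕ → ℂ} (hg : CM g) : HSF_af (mg (rg Z g)) = HSF_af (sm Z g) * HSF_af (mg g) := by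
  have e1 := HSF_inv hg
  have e2 := HSF_inv (HSF_CM (y := Z) hg)
  have e3 := HSF_rough (y := Z) hg
  have e4 := SMF_inv (Z := Z) hg
  have hmg : HSF_af (mg g) = HSF_af (ms Z g) * HSF_af (mg (rg Z g)) := by
    calc HSF_af (mg g) = HSF_af (mg g) * (HSF_af (mg (rg Z g)) * HSF_af (rg Z g)) := by rw [e2, mul_one]
      _ = HSF_af (mg g) * (HSF_af (mg (rg Z g)) * (HSF_af (ms Z g) * HSF_af g)) := by rw [e3]
      _ = (HSF_af (mg g) * HSF_af g) * (HSF_af (ms Z g) * HSF_af (mg (rg Z g))) := by ring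
      _ = _ := by rw [e1, one_mul]
  calc HSF_af (mg (rg Z g)) = (HSF_af (ms Z g) * HSF_af (sm Z g)) * HSF_af (mg (rg Z g)) := by rw [e4, one_mul]
    _ = HSF_af (sm Z g) * (HSF_af (ms Z g) * HSF_af (mg (rg Z g))) := by ring
    _ = _ := by rw [← hmg]

private theorem SMF_A (Z : ℝ) (g h : ℕ → ℂ) (hg : CM g) (hh : CM h) (n : ℕ) :
    cv (mg (rg Z g)) (mg (rg Z h)) n = cv (sf Z g h) (cv (mg g) (mg h)) n := by
  rw [← HSF_cv, ← HSF_cv, SMF_mg hg, SMF_mg hh, sf, HSF_mul, HSF_mul]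
  congr 1
  ring

/-! ### the second claim -/

private theorem SMF_fac {t : ℝ} (h0 : 0 ≤ t) (h1 : t ≤ 3 / 4) : (1 - t)⁻¹ ≤ Real.exp (t + 2 * t ^ 2) := by
  have hu : 0 ≤ t + 2 * t ^ 2 := by positivity
  have h2 := Real.quadratic_le_exp_of_nonneg hu
  have h3 : 0 < 1 - t := by linarith
  rw [inv_eq_one_div, div_le_iff₀ h3]
  have h4 : 1 ≤ (1 + (t + 2 * t ^ 2) + (t + 2 * t ^ 2) ^ 2 / 2) * (1 - t) := by
    have e : (1 + (t + 2 * t ^ 2) + (t + 2 * t ^ 2) ^ 2 / 2) * (1 - t) = 1 + t ^ 2 * (3 / 2 - t / 2 - 2 * t ^ 3) := by ring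
    rw [e]
    have h5 : t ^ 3 ≤ (3 / 4) ^ 3 := pow_le_pow_left₀ h0 h1 3
    have h6 : 0 ≤ 3 / 2 - t / 2 - 2 * t ^ 3 := by norm_num at h5; linarith
    have := mul_nonneg (sq_nonneg t) h6
    linarith
  refine h4.trans ?_
  exact mul_le_mul_of_nonneg_right h2 h3.le

private theorem SMF_sq (M : ℕ) : ∑ p ∈ Nat.primesLE M, 1 / (p : ℝ) ^ 2 ≤ 1 := by
  have key : ∀ M : ℕ, 1 ≤ M → ∑ n ∈ Icc 2 M, 1 / (n : ℝ) ^ 2 ≤ 1 - 1 / (M : ℝ) := by
    intro M hM
    induction M, hM using Nat.le_induction with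
    | base => simp
    | succ M hM ih =>
      rw [Finset.sum_Icc_succ_top (by omega)]
      have h0 : (0 : ℝ) < M := by exact_mod_cast hM
      have h1 : 1 / ((M + 1 : ℕ) : ℝ) ^ 2 ≤ 1 / M - 1 / ((M + 1 : ℕ) : ℝ) := by
        push_cast
        rw [div_sub_div _ _ h0.ne' (by positivity), div_le_div_iff₀ (by positivity) (by positivity)]
        nlinarith
      linarith
  rcases Nat.eq_zero_or_pos M with h | h
  · subst h
    have : Nat.primesLE 0 = ∅ := by decide
    rw [this, sum_empty]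
    exact zero_le_one
  · refine le_trans (sum_le_sum_of_subset_of_nonneg ?_ fun p _ _ => by positivity) ((key M h).trans ?_)
    · intro p hp
      rw [Nat.primesLE_eq_filter_range, mem_filter, mem_range] at hp
      rw [mem_Icc]
      exact ⟨hp.2.two_le, by omega⟩
    · have : (0 : ℝ) ≤ 1 / M := by positivity
      linarith

open scoped Classical in
private theorem SMF_one {Z : ℝ} (hZ : 8 ≤ Z) {g : ℕ → ℂ} (hg : CM g) (E : ℕ) :
    ∑ a ∈ Ioc 0 E, ‖sm Z g a‖ * ((a : ℝ) ^ (1 / Real.log Z) / a) ≤ Real.exp 27 * (1 + Real.log Z) ^ 3 := by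
  have hZ0 : 0 < Z := by linarith
  have hlZ : 3 * Real.log 2 ≤ Real.log Z := by
    have h1 : Real.log 8 ≤ Real.log Z := Real.log_le_log (by norm_num) hZ
    rwa [show (8 : ℝ) = 2 ^ 3 by norm_num, Real.log_pow] at h1
  have hl2 := Real.log_two_gt_d9
  have hly : 0 < Real.log Z := by linarith
  set θ : ℝ := 1 / Real.log Z with hθ
  have hθ0 : 0 < θ := by positivity
  have hθ1 : θ ≤ 1 / (3 * Real.log 2) := one_div_le_one_div_of_le (by linarith) hlZ
  have hθlt : θ < 1 := by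
    refine hθ1.trans_lt ?_
    rw [div_lt_one (by linarith)]
    linarith
  let f : ℕ →* ℝ :=
    { toFun := fun n => (n : ℝ) ^ (θ - 1)
      map_one' := by simp
      map_mul' := by
        intro m n
        push_cast
        exact Real.mul_rpow (Nat.cast_nonneg m) (Nat.cast_nonneg n) }
  have hf : ∀ n : ℕ, f n = (n : ℝ) ^ (θ - 1) := fun n => rfl
  have hlt : ∀ {p : ℕ}, p.Prime → ‖f p‖ < 1 := by
    intro p hp
    rw [hf, Real.norm_of_nonneg (Real.rpow_nonneg (Nat.cast_nonneg _) _)]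
    exact Real.rpow_lt_one_of_one_lt_of_neg (by exact_mod_cast hp.one_lt) (by linarith)
  set M := ⌊Z⌋₊ with hM
  have hM2 : 2 ≤ M := Nat.le_floor (by push_cast; linarith)
  have hMy : (M : ℝ) ≤ Z := Nat.floor_le hZ0.le
  have hM0 : (2 : ℝ) ≤ M := by exact_mod_cast hM2
  have hsum := (EulerProduct.summable_and_hasSum_smoothNumbers_prod_primesBelow_geometric hlt (M + 1)).2
  -- the finite sum is at most the product
  have h1 : ∑ a ∈ (Ioc 0 E).filter (smt Z), f a ≤ ∏ p ∈ (M + 1).primesBelow, (1 - f p)⁻¹ := by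
    have hmem : ∀ a ∈ (Ioc 0 E).filter (smt Z), a ∈ (M + 1).smoothNumbers := by
      intro a ha
      rw [mem_filter] at ha
      rw [Nat.mem_smoothNumbers']
      intro p hp hd
      have := ha.2 p hp hd
      have h2 : p ≤ M := Nat.le_floor this
      omega
    have h2 := sum_le_hasSum (((Ioc 0 E).filter (smt Z)).subtype (fun a => a ∈ (M + 1).smoothNumbers))
      (fun i _ => by rw [hf]; exact Real.rpow_nonneg (Nat.cast_nonneg _) _) hsum
    have h3 : ∑ i ∈ ((Ioc 0 E).filter (smt Z)).subtype (fun a => a ∈ (M + 1).smoothNumbers), f i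
        = ∑ a ∈ (Ioc 0 E).filter (smt Z), f a := Finset.sum_subtype_of_mem (fun a => f a) hmem
    rw [h3] at h2
    exact h2
  have hPB : (M + 1).primesBelow = Nat.primesLE M := by
    rw [Nat.primesLE_eq_filter_range]
    rfl
  -- the product
  have hfp : ∀ p ∈ Nat.primesLE M, 0 ≤ f p ∧ f p ≤ 3 / 4 ∧ f p ≤ 3 * (1 / (p : ℝ)) ∧ 2 * f p ^ 2 ≤ 15 * (1 / (p : ℝ) ^ 2) := by
    intro p hp
    rw [Nat.primesLE_eq_filter_range, mem_filter, mem_range] at hp
    have hp2 : (2 : ℝ) ≤ p := by exact_mod_cast hp.2.two_le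
    have hp0 : (0 : ℝ) < p := by linarith
    have hpZ : (p : ℝ) ≤ Z := le_trans (by exact_mod_cast (by omega : p ≤ M)) hMy
    have f0 : 0 ≤ f p := by rw [hf]; exact Real.rpow_nonneg hp0.le _
    have f1 : f p ≤ Real.exp 1 * (1 / p) := by
      rw [hf, Real.rpow_sub hp0, Real.rpow_one, mul_one_div]
      refine div_le_div_of_nonneg_right ?_ hp0.le
      calc (p : ℝ) ^ θ ≤ Z ^ θ := Real.rpow_le_rpow hp0.le hpZ hθ0.le
        _ = Real.exp 1 := by
            rw [Real.rpow_def_of_pos hZ0, hθ]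
            congr 1
            field_simp
    have he := Real.exp_one_lt_d9
    have hp1 : 0 < 1 / (p : ℝ) := by positivity
    refine ⟨f0, ?_, ?_, ?_⟩
    · have g1 : f p ≤ (2 : ℝ) ^ (θ - 1) := by
        rw [hf]
        exact Real.rpow_le_rpow_of_nonpos (by norm_num) hp2 (by linarith)
      refine g1.trans ?_
      rw [Real.rpow_def_of_pos (by norm_num)]
      have g2 : Real.log 2 * (θ - 1) ≤ 1 / 3 - Real.log 2 := by
        have : Real.log 2 * θ ≤ Real.log 2 * (1 / (3 * Real.log 2)) := mul_le_mul_of_nonneg_left hθ1 (by linarith)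
        have e : Real.log 2 * (1 / (3 * Real.log 2)) = 1 / 3 := by
          have : Real.log 2 ≠ 0 := by linarith
          field_simp
        linarith
      have g3 : Real.exp (Real.log 2 * (θ - 1)) ≤ Real.exp (-(1 / 3)) := by
        rw [Real.exp_le_exp]
        linarith
      refine g3.trans ?_
      have g4 : (1 : ℝ) + 1 / 3 ≤ Real.exp (1 / 3) := by
        have := Real.add_one_le_exp (1 / 3 : ℝ)
        linarith
      rw [Real.exp_neg, inv_le_comm₀ (Real.exp_pos _) (by norm_num)]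
      norm_num at g4 ⊢
      linarith
    · refine f1.trans ?_
      exact mul_le_mul_of_nonneg_right (by linarith) hp1.le
    · have g1 : f p ^ 2 ≤ (Real.exp 1 * (1 / p)) ^ 2 := pow_le_pow_left₀ f0 f1 2
      have g2 : (Real.exp 1) ^ 2 ≤ 15 / 2 := by
        have : Real.exp 1 ^ 2 ≤ 2.7182818286 ^ 2 := pow_le_pow_left₀ (Real.exp_pos 1).le he.le 2
        norm_num at this ⊢
        linarith
      have g3 : (Real.exp 1 * (1 / (p : ℝ))) ^ 2 = Real.exp 1 ^ 2 * (1 / (p : ℝ) ^ 2) := by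
        rw [mul_pow, div_pow, one_pow]
      rw [g3] at g1
      have g4 : 0 ≤ 1 / (p : ℝ) ^ 2 := by positivity
      nlinarith
  have h2 : ∏ p ∈ (M + 1).primesBelow, (1 - f p)⁻¹ ≤ Real.exp 27 * (1 + Real.log Z) ^ 3 := by
    rw [hPB]
    have g1 : ∏ p ∈ Nat.primesLE M, (1 - f p)⁻¹ ≤ ∏ p ∈ Nat.primesLE M, Real.exp (3 * (1 / (p : ℝ)) + 15 * (1 / (p : ℝ) ^ 2)) := by
      refine prod_le_prod (fun p hp => ?_) fun p hp => ?_
      · obtain ⟨_, f1, _⟩ := hfp p hp
        rw [inv_nonneg]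
        linarith
      · obtain ⟨f0, f1, f2, f3⟩ := hfp p hp
        refine (SMF_fac f0 f1).trans ?_
        rw [Real.exp_le_exp]
        linarith
    refine g1.trans ?_
    rw [← Real.exp_sum, sum_add_distrib, ← mul_sum, ← mul_sum]
    have g2 := Pool.Agent.Lib.PrimeSums.sum_inv_le M hM2
    have g3 := SMF_sq M
    have hlog : 0 < Real.log M := Real.log_pos (by linarith)
    have hlM : Real.log M ≤ 1 + Real.log Z := by
      have := Real.log_le_log (by linarith) hMy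
      linarith
    calc Real.exp (3 * ∑ p ∈ Nat.primesLE M, 1 / (p : ℝ) + 15 * ∑ p ∈ Nat.primesLE M, 1 / (p : ℝ) ^ 2)
        ≤ Real.exp (3 * (Real.log (Real.log M) + 4) + 15) := Real.exp_le_exp.2 (by linarith)
      _ = Real.exp (27 + Real.log (Real.log M ^ 3)) := by
          rw [Real.log_pow]
          congr 1
          push_cast
          ring
      _ = Real.exp 27 * Real.log M ^ 3 := by
          rw [Real.exp_add, Real.exp_log (by positivity)]
      _ ≤ Real.exp 27 * (1 + Real.log Z) ^ 3 :=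
          mul_le_mul_of_nonneg_left (pow_le_pow_left₀ hlog.le hlM 3) (Real.exp_pos _).le
  refine le_trans ?_ (h1.trans h2)
  rw [Finset.sum_filter]
  refine sum_le_sum fun a ha => ?_
  have ha0 : (0 : ℝ) < a := by exact_mod_cast (mem_Ioc.1 ha).1
  have e1 : (a : ℝ) ^ θ / a = f a := by
    rw [hf, Real.rpow_sub ha0, Real.rpow_one]
  rw [e1]
  have hfa : 0 ≤ f a := by rw [hf]; exact Real.rpow_nonneg ha0.le _
  unfold sm
  split_ifs with hc
  · calc ‖g a‖ * f a ≤ 1 * f a := mul_le_mul_of_nonneg_right (hg.2.2.2 a) hfa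
      _ = f a := one_mul _
  · rw [norm_zero, zero_mul]

theorem SMF : SMF_stmt := by
  refine ⟨fun Z g h hg hh n _ => SMF_A Z g h hg hh n, Real.exp 27 * Real.exp 27, by positivity, ?_⟩
  intro Z g h hZ hg hh E
  have hly : 0 < Real.log Z := Real.log_pos (by linarith)
  set θ : ℝ := 1 / Real.log Z with hθ
  have h1 : ∀ e ∈ Ioc 0 E, ‖sf Z g h e‖ * (e : ℝ) ^ θ / e ≤
      ∑ d ∈ e.divisorsAntidiagonal, (‖sm Z g d.1‖ * ((d.1 : ℝ) ^ θ / d.1)) * (‖sm Z h d.2‖ * ((d.2 : ℝ) ^ θ / d.2)) := by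
    intro e he
    have he0 : (0 : ℝ) < e := by exact_mod_cast (Finset.mem_Ioc.1 he).1
    have h2 : ‖sf Z g h e‖ ≤ ∑ d ∈ e.divisorsAntidiagonal, ‖sm Z g d.1‖ * ‖sm Z h d.2‖ := by
      unfold sf cv
      refine (norm_sum_le _ _).trans (le_of_eq ?_)
      exact Finset.sum_congr rfl fun d _ => norm_mul _ _
    rw [mul_div_assoc]
    refine (mul_le_mul_of_nonneg_right h2 (by positivity)).trans (le_of_eq ?_)
    rw [Finset.sum_mul]
    refine Finset.sum_congr rfl fun d hd => ?_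
    obtain ⟨hd1, hd2⟩ := Nat.mem_divisorsAntidiagonal.1 hd
    rw [← hd1]
    push_cast
    rw [Real.mul_rpow (Nat.cast_nonneg _) (Nat.cast_nonneg _), mul_div_mul_comm]
    ring
  have h1' : ∑ e ∈ Ioc 0 E, ‖sf Z g h e‖ * (e : ℝ) ^ θ / e ≤ ∑ e ∈ Ioc 0 E,
      ∑ d ∈ e.divisorsAntidiagonal, (‖sm Z g d.1‖ * ((d.1 : ℝ) ^ θ / d.1)) * (‖sm Z h d.2‖ * ((d.2 : ℝ) ^ θ / d.2)) :=
    Finset.sum_le_sum h1
  refine h1'.trans ?_
  refine (HSF_prod E (fun a : ℕ => ‖sm Z g a‖ * ((a : ℝ) ^ θ / (a : ℝ))) (fun b : ℕ => ‖sm Z h b‖ * ((b : ℝ) ^ θ / (b : ℝ)))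
    (fun n => by positivity) (fun n => by positivity)).trans ?_
  have h3 := SMF_one hZ hg E
  have h4 := SMF_one hZ hh E
  calc (∑ a ∈ Ioc 0 E, ‖sm Z g a‖ * ((a : ℝ) ^ θ / a)) * ∑ b ∈ Ioc 0 E, ‖sm Z h b‖ * ((b : ℝ) ^ θ / b)
      ≤ (Real.exp 27 * (1 + Real.log Z) ^ 3) * (Real.exp 27 * (1 + Real.log Z) ^ 3) :=
        mul_le_mul h3 h4 (Finset.sum_nonneg fun _ _ => by positivity) (by positivity)
    _ = _ := by ring

end Pool.Agent.YB
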