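import Pool.Agent.helper52.EU.SpecK
import Pool.Agent.helper36.YB.Spec
import Pool.Agent.helper53.BP.RGB

/-! # yb:SUM, sup bound for the rough Moebius function -/

set_option autoImplicit false

open Finset

noncomputable section

namespace Pool.Agent.EU

open Pool.Agent.FI Pool.Agent.HK Pool.Agent.BP Pool.Agent.YB
open Pool.Agent.CH (nit rgh)

private theorem SUM_tau (u : ℕ) : ∑ n ∈ Ioc 0 u, (#n.divisors : ℝ) ≤ u * (1 + Real.log u) := by
  have h := ArithmeticFunction.sum_Ioc_sigma0_eq_sum_div u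
  have h1 : ∑ n ∈ Ioc 0 u, (#n.divisors : ℝ) = ((∑ n ∈ Ioc 0 u, (u / n) : ℕ) : ℝ) := by
    rw [← h]
    push_cast
    refine sum_congr rfl fun n _ => ?_
    rw [ArithmeticFunction.sigma_zero_apply]
  rw [h1]
  push_cast
  have h2 : ∑ n ∈ Ioc 0 u, ((u / n : ℕ) : ℝ) ≤ ∑ n ∈ Ioc 0 u, (u : ℝ) * (n : ℝ)⁻¹ := by
    refine sum_le_sum fun n _ => ?_
    rw [← div_eq_mul_inv]
    exact Nat.cast_div_le
  refine h2.trans ?_
  rw [← mul_sum]
  refine mul_le_mul_of_nonneg_left ?_ (Nat.cast_nonneg _)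
  have h3 := harmonic_le_one_add_log u
  rw [harmonic_eq_sum_Icc] at h3
  push_cast at h3
  have h4 : Ioc 0 u = Icc 1 u := by
    ext n
    rw [mem_Ioc, mem_Icc]
    omega
  rw [h4]
  exact h3

private theorem SUM_mg {g : ℕ → ℂ} (hg : CM g) (n : ℕ) : ‖mg g n‖ ≤ 1 := by
  unfold mg
  rw [norm_mul]
  have h1 : ‖(ArithmeticFunction.moebius n : ℂ)‖ ≤ 1 := by
    rw [Complex.norm_intCast]
    have := ArithmeticFunction.abs_moebius_le_one (n := n)
    exact_mod_cast this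
  calc ‖(ArithmeticFunction.moebius n : ℂ)‖ * ‖g n‖ ≤ 1 * 1 := mul_le_mul h1 (hg.2.2.2 n) (norm_nonneg _) zero_le_one
    _ = 1 := mul_one 1

private theorem SUM_rg {Z : ℝ} {g : ℕ → ℂ} (hg : CM g) (n : ℕ) : ‖mg (rg Z g) n‖ ≤ 1 := by
  have h := SUM_mg hg n
  unfold mg rg at *
  split_ifs
  · exact h
  · rw [mul_zero, norm_zero]; exact zero_le_one

private theorem SUM_cv {F G : ℕ → ℂ} (hF : ∀ n, ‖F n‖ ≤ 1) (hG : ∀ n, ‖G n‖ ≤ 1) (n : ℕ) : ‖cv F G n‖ ≤ #n.divisors := by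
  unfold cv
  refine (norm_sum_le _ _).trans ?_
  refine (sum_le_card_nsmul _ _ 1 fun d _ => ?_).trans ?_
  · rw [norm_mul]
    calc ‖F d.1‖ * ‖G d.2‖ ≤ 1 * 1 := mul_le_mul (hF _) (hG _) (norm_nonneg _) zero_le_one
      _ = 1 := mul_one 1
  · rw [nsmul_eq_mul, mul_one]
    have : #n.divisorsAntidiagonal = #n.divisors := by
      rw [← Nat.map_div_right_divisors, card_map]
    rw [this]

private theorem SUM_triv {F G : ℕ → ℂ} (hF : ∀ n, ‖F n‖ ≤ 1) (hG : ∀ n, ‖G n‖ ≤ 1) (t : ℝ) (u : ℕ) :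
    ‖∑ n ∈ Ioc 0 u, cv F G n * nit t n‖ ≤ u * (1 + Real.log u) := by
  refine (norm_sum_le _ _).trans (le_trans ?_ (SUM_tau u))
  refine sum_le_sum fun n _ => ?_
  rw [norm_mul, RGB_nit_norm, mul_one]
  exact SUM_cv hF hG n

private theorem SUM_rgh_mul {Z : ℝ} {a b : ℕ} : rgh Z (a * b) ↔ rgh Z a ∧ rgh Z b := by
  unfold rgh
  constructor
  · rintro ⟨h1, h2⟩
    exact ⟨⟨left_ne_zero_of_mul h1, fun p hp hd => h2 p hp (Dvd.dvd.mul_right hd b)⟩,
      ⟨right_ne_zero_of_mul h1, fun p hp hd => h2 p hp (Dvd.dvd.mul_left hd a)⟩⟩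
  · rintro ⟨⟨h1, h2⟩, h3, h4⟩
    refine ⟨mul_ne_zero h1 h3, fun p hp hd => ?_⟩
    rcases (hp.dvd_mul).1 hd with h | h
    · exact h2 p hp h
    · exact h4 p hp h

open scoped Classical in
private theorem SUM_cvr {Z : ℝ} {g h : ℕ → ℂ} {n : ℕ} :
    cv (mg (rg Z g)) (mg (rg Z h)) n = if rgh Z n then cv (mg g) (mg h) n else 0 := by
  classical
  unfold cv
  by_cases hn : rgh Z n
  · rw [if_pos hn]
    refine sum_congr rfl fun d hd => ?_
    obtain ⟨hd1, _⟩ := Nat.mem_divisorsAntidiagonal.1 hd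
    rw [← hd1, SUM_rgh_mul] at hn
    unfold mg rg
    rw [if_pos hn.1, if_pos hn.2]
  · rw [if_neg hn]
    refine sum_eq_zero fun d hd => ?_
    obtain ⟨hd1, _⟩ := Nat.mem_divisorsAntidiagonal.1 hd
    rw [← hd1, SUM_rgh_mul, not_and_or] at hn
    unfold mg rg
    rcases hn with h0 | h0
    · rw [if_neg h0, mul_zero, zero_mul]
    · rw [if_neg h0, mul_zero, mul_zero]

private theorem SUM_rf {Z : ℝ} {n : ℕ} {Ψ : ℤ × ℤ → ℂ} {g h : ℕ → ℂ}
    (hM : rf (fun z => (mue z : ℂ) * Ψ z) n = cv (mg g) (mg h) n) :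
    rf (fun z => wm Z z * Ψ z) n = cv (mg (rg Z g)) (mg (rg Z h)) n := by
  classical
  have h1 : rf (fun z => wm Z z * Ψ z) n = if rgh Z n then rf (fun z => (mue z : ℂ) * Ψ z) n else 0 := by
    unfold rf
    by_cases hc : rgh Z n
    · rw [if_pos hc]
      refine sum_congr rfl fun z hz => ?_
      rw [mem_filter] at hz
      show wm Z z * Ψ z = (mue z : ℂ) * Ψ z
      unfold wm
      rw [hz.2, if_pos hc]
    · rw [if_neg hc]
      refine sum_eq_zero fun z hz => ?_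
      rw [mem_filter] at hz
      show wm Z z * Ψ z = 0
      unfold wm
      rw [hz.2, if_neg hc, zero_mul]
  rw [h1, hM, SUM_cvr]

/-- the sum over the elements of norm at most `u` -/
private theorem SUM_FF (hSRF : SRF_stmt) {Z : ℝ} {Ψ : ℤ × ℤ → ℂ} {g h : ℕ → ℂ} (t : ℝ) (u : ℕ)
    (hM : ∀ n : ℕ, 1 ≤ n → rf (fun z => (mue z : ℂ) * Ψ z) n = cv (mg g) (mg h) n) :
    ∑ z ∈ FF u, wm Z z * (Ψ z * nit t (nn z)) = ∑ n ∈ Ioc 0 u, cv (mg (rg Z g)) (mg (rg Z h)) n * nit t n := by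
  rw [← hSRF.1 (fun z => wm Z z * (Ψ z * nit t (nn z))) u]
  refine sum_congr rfl fun n hn => ?_
  rw [← SUM_rf (hM n (mem_Ioc.1 hn).1)]
  unfold rf
  rw [sum_mul]
  refine sum_congr rfl fun z hz => ?_
  rw [mem_filter] at hz
  show wm Z z * (Ψ z * nit t (nn z : ℝ)) = wm Z z * Ψ z * nit t (n : ℝ)
  rw [hz.2]
  ring

/-- the shell as a difference of two sums -/
private theorem SUM_shell (w Ψ : ℤ × ℤ → ℂ) (t : ℝ) {a b : ℕ} (hab : a ≤ b) (hSIZ : SIZ_stmt) :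
    Sh w Ψ t a b = ∑ z ∈ FF b, w z * (Ψ z * nit t (nn z)) - ∑ z ∈ FF a, w z * (Ψ z * nit t (nn z)) := by
  classical
  unfold Sh
  have h1 := sum_filter_add_sum_filter_not (FF b) (fun z => a < nn z) (fun z => w z * (Ψ z * nit t (nn z)))
  have h2 : (FF b).filter (fun z => ¬ a < nn z) = FF a := by
    ext z
    unfold FF
    rw [mem_filter, mem_filter, mem_filter, mem_product, mem_product]
    constructor
    · rintro ⟨⟨_, hf, _⟩, h3⟩
      have h4 : nn z ≤ a := by omega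
      obtain ⟨_, _, _, h5, _⟩ := hSIZ z hf
      unfold FF at h5
      rw [mem_filter, mem_product, mem_Icc, mem_Icc] at h5
      have h6 : (nn z : ℤ) ≤ a := by exact_mod_cast h4
      rw [mem_Icc, mem_Icc]
      refine ⟨⟨⟨by linarith [h5.1.1.1], by linarith [h5.1.1.2]⟩, by linarith [h5.1.2.1], by linarith [h5.1.2.2]⟩, hf, h4⟩
    · rintro ⟨⟨h3, h4⟩, hf, h5⟩
      rw [mem_Icc] at h3 h4
      have h6 : (a : ℤ) ≤ b := by exact_mod_cast hab
      rw [mem_Icc, mem_Icc]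
      exact ⟨⟨⟨⟨by linarith [h3.1], by linarith [h3.2]⟩, by linarith [h4.1], by linarith [h4.2]⟩, hf, h5.trans hab⟩, by omega⟩
  rw [h2] at h1
  rw [← h1, add_sub_cancel_right]

/-- the partial sums -/
private theorem SUM_sum {Z t W X₀ s : ℝ} {g h : ℕ → ℂ} (hg : CM g) (hh : CM h) (hZ : 8 ≤ Z) (u : ℕ) (hs : 0 ≤ s)
    (hSMF : ∀ n : ℕ, 1 ≤ n → cv (mg (rg Z g)) (mg (rg Z h)) n = cv (sf Z g h) (cv (mg g) (mg h)) n)
    (hW : ∑ e ∈ Ioc 0 u, ‖sf Z g h e‖ * (e : ℝ) ^ (1 / Real.log Z) / e ≤ W)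
    (h1 : ∀ y : ℕ, X₀ ≤ y → y ≤ u → ‖∑ n ∈ Ioc 0 y, cv (mg g) (mg h) n * nit t n‖ ≤ y * s)
    (h2 : ∀ b : ℕ, 1 ≤ b → b ≤ u → ((u / b : ℕ) : ℝ) < X₀ → 1 + Real.log u ≤ s * (b : ℝ) ^ (1 / Real.log Z)) :
    ‖∑ n ∈ Ioc 0 u, cv (mg (rg Z g)) (mg (rg Z h)) n * nit t n‖ ≤ u * s * W := by
  have e1 : ∑ n ∈ Ioc 0 u, cv (mg (rg Z g)) (mg (rg Z h)) n * nit t n
      = ∑ b ∈ Ioc 0 u, (sf Z g h b * nit t b) * ∑ a ∈ Ioc 0 (u / b), cv (mg g) (mg h) a * nit t a := by
    rw [← RGB_hyp]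
    refine sum_congr rfl fun n hn => ?_
    rw [hSMF n (mem_Ioc.1 hn).1, RGB_twist]
  rw [e1]
  refine (norm_sum_le _ _).trans ?_
  have hlogZ : 0 ≤ 1 / Real.log Z := by
    have := Real.log_nonneg (by linarith : (1 : ℝ) ≤ Z)
    positivity
  have e2 : ∀ b ∈ Ioc 0 u, ‖(sf Z g h b * nit t b) * ∑ a ∈ Ioc 0 (u / b), cv (mg g) (mg h) a * nit t a‖
      ≤ u * s * (‖sf Z g h b‖ * (b : ℝ) ^ (1 / Real.log Z) / b) := by
    intro b hb
    rw [mem_Ioc] at hb
    have hb1 : (1 : ℝ) ≤ b := by exact_mod_cast hb.1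
    have hb0 : (0 : ℝ) < b := by linarith
    rw [norm_mul, norm_mul, RGB_nit_norm, mul_one]
    have hpow : 1 ≤ (b : ℝ) ^ (1 / Real.log Z) := Real.one_le_rpow hb1 hlogZ
    have hdiv : ((u / b : ℕ) : ℝ) ≤ u / b := Nat.cast_div_le
    have hT : ‖∑ a ∈ Ioc 0 (u / b), cv (mg g) (mg h) a * nit t a‖ ≤ u / b * (s * (b : ℝ) ^ (1 / Real.log Z)) := by
      by_cases hc : X₀ ≤ ((u / b : ℕ) : ℝ)
      · refine (h1 (u / b) hc (Nat.div_le_self _ _)).trans ?_
        refine mul_le_mul hdiv ?_ hs (by positivity)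
        nlinarith
      · rw [not_le] at hc
        refine (SUM_triv (SUM_mg hg) (SUM_mg hh) t (u / b)).trans ?_
        have h3 := h2 b hb.1 hb.2 hc
        have hu0 : (0 : ℝ) < u := by
          have : 0 < u := by omega
          exact_mod_cast this
        have h4 : (0 : ℕ) < u / b := Nat.div_pos hb.2 hb.1
        have h4' : (1 : ℝ) ≤ ((u / b : ℕ) : ℝ) := by exact_mod_cast h4
        have h5 : Real.log ((u / b : ℕ) : ℝ) ≤ Real.log u := by
          refine Real.log_le_log (by linarith) ?_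
          exact_mod_cast Nat.div_le_self _ _
        have h6 : 0 ≤ Real.log ((u / b : ℕ) : ℝ) := Real.log_nonneg h4'
        refine mul_le_mul hdiv (by linarith) (by linarith) (by positivity)
    calc ‖sf Z g h b‖ * ‖∑ a ∈ Ioc 0 (u / b), cv (mg g) (mg h) a * nit t a‖
        ≤ ‖sf Z g h b‖ * (u / b * (s * (b : ℝ) ^ (1 / Real.log Z))) := mul_le_mul_of_nonneg_left hT (norm_nonneg _)
      _ = u * s * (‖sf Z g h b‖ * (b : ℝ) ^ (1 / Real.log Z) / b) := by ring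
  refine (sum_le_sum e2).trans ?_
  rw [← mul_sum]
  exact mul_le_mul_of_nonneg_left hW (by positivity)

private theorem SUM_large (A B C₀ x₁ : ℕ) (C ε₀ : ℝ) (hε : 0 < ε₀) :
    ∃ x₀ : ℕ, ∀ x : ℕ, x₀ ≤ x → 1 ≤ x ∧ 1 ≤ Real.log x ∧ 0 ≤ Real.log (Real.log x) ∧ 24 * C ≤ Real.log x ∧
      (3 / ε₀) ^ (A + 9) ≤ Real.log x ∧ (3 / ε₀) ^ (B + 1) ≤ Real.log x ∧
      (1 + C₀ * Real.log (Real.log x)) ^ 6 ≤ Real.log x ∧ 2 * (A + 9) * C₀ * Real.log (Real.log x) ^ 2 ≤ ε₀ * Real.log x ∧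
      24 * Real.log x ^ (A + 1) ≤ (x : ℝ) ^ (ε₀ / 6) ∧ (x₁ : ℝ) ≤ (x : ℝ) ^ (ε₀ / 3) ∧ 1 ≤ (x : ℝ) ^ (ε₀ / 3) := by
  have t1 : Filter.Tendsto (fun x : ℕ => Real.log x) Filter.atTop Filter.atTop :=
    Real.tendsto_log_atTop.comp tendsto_natCast_atTop_atTop
  have e1 := t1.eventually_ge_atTop (max 1 (max (24 * C) (max ((3 / ε₀) ^ (A + 9)) ((3 / ε₀) ^ (B + 1)))))
  have e0 := Filter.eventually_ge_atTop 1
  -- (1 + C₀ log L)^6 ≤ L
  have l1 : (fun y : ℝ => (1 + C₀ * Real.log y) ^ 6) =o[Filter.atTop] (fun y : ℝ => y) := by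
    have a1 : (fun y : ℝ => 1 + C₀ * Real.log y) =O[Filter.atTop] (fun y : ℝ => Real.log y) := by
      refine Asymptotics.IsBigO.add ?_ ?_
      · refine Asymptotics.IsBigO.of_bound 1 ?_
        filter_upwards [Filter.eventually_ge_atTop (Real.exp 1)] with y hy
        have : 1 ≤ Real.log y := (Real.le_log_iff_exp_le ((Real.exp_pos 1).trans_le hy)).2 hy
        rw [one_mul, norm_one, Real.norm_of_nonneg (by linarith)]
        exact this
      · exact Asymptotics.isBigO_const_mul_self _ _ _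
    have a2 := a1.pow 6
    have a3 : (fun y : ℝ => Real.log y ^ 6) =o[Filter.atTop] (fun y : ℝ => y) := by
      have := isLittleO_log_rpow_rpow_atTop (6 : ℝ) (one_pos)
      simp only [Real.rpow_one] at this
      refine this.congr_left fun y => ?_
      rw [show (6 : ℝ) = ((6 : ℕ) : ℝ) by norm_num, Real.rpow_natCast]
    exact a2.trans_isLittleO a3
  have l2 : (fun y : ℝ => 2 * (A + 9) * C₀ * Real.log y ^ 2) =o[Filter.atTop] (fun y : ℝ => y) := by
    have a3 : (fun y : ℝ => Real.log y ^ 2) =o[Filter.atTop] (fun y : ℝ => y) := by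
      have := isLittleO_log_rpow_rpow_atTop (2 : ℝ) (one_pos)
      simp only [Real.rpow_one] at this
      refine this.congr_left fun y => ?_
      rw [show (2 : ℝ) = ((2 : ℕ) : ℝ) by norm_num, Real.rpow_natCast]
    exact a3.const_mul_left _
  have e2 := t1.eventually ((l1.bound one_pos).and (l2.bound hε))
  have e3 := tendsto_natCast_atTop_atTop.eventually ((isLittleO_log_rpow_rpow_atTop ((A + 1 : ℕ) : ℝ) (by positivity : 0 < ε₀ / 6)).bound (by norm_num : (0 : ℝ) < 1 / 24))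
  have t2 : Filter.Tendsto (fun x : ℕ => (x : ℝ) ^ (ε₀ / 3)) Filter.atTop Filter.atTop :=
    (tendsto_rpow_atTop (by positivity)).comp tendsto_natCast_atTop_atTop
  have e4 := t2.eventually_ge_atTop (max (x₁ : ℝ) 1)
  obtain ⟨x₀, hx₀⟩ := Filter.eventually_atTop.1 (e0.and (e1.and (e2.and (e3.and e4))))
  refine ⟨x₀, fun x hx => ?_⟩
  obtain ⟨h0, h1, ⟨h2a, h2b⟩, h3, h4⟩ := hx₀ x hx
  have hL1 : (1 : ℝ) ≤ Real.log x := (le_max_left _ _).trans h1
  have hL0 : (0 : ℝ) ≤ Real.log x := by linarith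
  have hLL : 0 ≤ Real.log (Real.log x) := Real.log_nonneg hL1
  refine ⟨h0, hL1, hLL, (le_max_left _ _).trans ((le_max_right _ _).trans h1),
    (le_max_left _ _).trans ((le_max_right _ _).trans ((le_max_right _ _).trans h1)),
    (le_max_right _ _).trans ((le_max_right _ _).trans ((le_max_right _ _).trans h1)), ?_, ?_, ?_,
    (le_max_left _ _).trans h4, (le_max_right _ _).trans h4⟩
  · rw [one_mul, Real.norm_of_nonneg (by positivity), Real.norm_of_nonneg hL0] at h2a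
    exact h2a
  · rw [Real.norm_of_nonneg (by positivity), Real.norm_of_nonneg hL0] at h2b
    exact h2b
  · rw [Real.norm_of_nonneg (Real.rpow_nonneg hL0 _), Real.norm_of_nonneg (Real.rpow_nonneg (Nat.cast_nonneg _) _), Real.rpow_natCast] at h3
    linarith

open scoped Classical in
theorem SUM (hMOX : MOX_stmt) (hSMF : SMF_stmt) (hMUX : MUX_stmt) (hTRX : TRX_stmt) (hUXH : UXH_stmt) (hSRF : SRF_stmt)
    (hSIZ : SIZ_stmt) : SUM_stmt := by
  intro A B K C₀ ε₀ hε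
  obtain ⟨hSM1, C, hC, hSM2⟩ := hSMF
  obtain ⟨x₁, hM⟩ := hMOX (A + 9) (B + 1) ⌈3 * K / ε₀⌉₊
  obtain ⟨x₀, hx₀⟩ := SUM_large A B C₀ x₁ C ε₀ hε
  refine ⟨x₀, ?_⟩
  intro x hx q ξ i₁ i κ t Z N N' hξ hq hi₁ hi hX hκ ht hZ8 hZL hN1 hNN hN2 hN4
  obtain ⟨hx1, hL1, hLL, hLC, hLA, hLB, hL6, hL2, hpow, hx13, hx13'⟩ := hx₀ x hx
  set L : ℝ := Real.log x with hLdef
  have hL0 : 0 < L := by linarith
  have hxr : (1 : ℝ) ≤ x := by exact_mod_cast hx1
  have hx0 : (0 : ℝ) < x := by linarith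
  have hUX := hUXH q ξ i₁ i κ hξ hX
  obtain ⟨k₁, k₂, g, h, h₁, h₂, _, _, hg, hh, _, _, _, _, hrf⟩ := hTRX q (HX ξ i₁ i κ) hξ.1 hUX
  have hmu := hMUX q (HX ξ i₁ i κ) hξ.1 hUX g h hg hh (fun n hn => (hrf n hn).2.1)
  have hlogZ : Real.log Z ≤ C₀ * Real.log L := by
    have h1 : Real.log Z ≤ Real.log (L ^ C₀) := Real.log_le_log (by linarith) hZL
    rwa [Real.log_pow] at h1
  have hlogZ0 : 0 < Real.log Z := Real.log_pos (by linarith)
  -- the sum over the smooth part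
  have hW : ∀ u : ℕ, ∑ e ∈ Ioc 0 u, ‖sf Z g h e‖ * (e : ℝ) ^ (1 / Real.log Z) / e ≤ C * L := by
    intro u
    refine (hSM2 Z g h hZ8 hg hh u).trans ?_
    refine mul_le_mul_of_nonneg_left ?_ hC.le
    refine le_trans ?_ hL6
    exact pow_le_pow_left₀ (by positivity) (by linarith) 6
  set X₀ : ℝ := (x : ℝ) ^ (ε₀ / 3) with hX₀
  have hX₀0 : 0 < X₀ := by positivity
  have h3ε : 0 < 3 / ε₀ := by positivity
  -- the partial sums of the Moebius function
  have hT : ∀ y : ℕ, X₀ ≤ y → ‖∑ n ∈ Ioc 0 y, cv (mg g) (mg h) n * nit t n‖ ≤ y * (1 / L ^ (A + 8)) := by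
    intro y hy
    have hy0 : (0 : ℝ) < y := hX₀0.trans_le hy
    have hlogy : ε₀ / 3 * L ≤ Real.log y := by
      have h1 := Real.log_le_log hX₀0 hy
      rwa [hX₀, Real.log_rpow hx0] at h1
    have hlogy0 : 0 < Real.log y := lt_of_lt_of_le (by positivity) hlogy
    have hLy : L ≤ 3 / ε₀ * Real.log y := by
      have : 3 / ε₀ * (ε₀ / 3 * L) ≤ 3 / ε₀ * Real.log y := mul_le_mul_of_nonneg_left hlogy h3ε.le
      have e1 : 3 / ε₀ * (ε₀ / 3 * L) = L := by field_simp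
      linarith
    have c1 : x₁ ≤ y := by
      have : (x₁ : ℝ) ≤ y := hx13.trans hy
      exact_mod_cast this
    have c2 : (q : ℝ) ≤ Real.log y ^ (B + 1) := by
      have f1 : L ^ B * (3 / ε₀) ^ (B + 1) ≤ Real.log y ^ (B + 1) * (3 / ε₀) ^ (B + 1) := by
        calc L ^ B * (3 / ε₀) ^ (B + 1) ≤ L ^ B * L := mul_le_mul_of_nonneg_left hLB (by positivity)
          _ = L ^ (B + 1) := (pow_succ _ _).symm
          _ ≤ (3 / ε₀ * Real.log y) ^ (B + 1) := pow_le_pow_left₀ hL0.le hLy _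
          _ = Real.log y ^ (B + 1) * (3 / ε₀) ^ (B + 1) := by rw [mul_pow]; ring
      exact hq.trans (le_of_mul_le_mul_right f1 (by positivity))
    have hxK : (x : ℝ) ^ K ≤ (y : ℝ) ^ ⌈3 * K / ε₀⌉₊ := by
      have f1 : (x : ℝ) ≤ (y : ℝ) ^ (3 / ε₀) := by
        have f2 : ((x : ℝ) ^ (ε₀ / 3)) ^ (3 / ε₀) ≤ (y : ℝ) ^ (3 / ε₀) := Real.rpow_le_rpow hX₀0.le hy h3ε.le
        rw [← Real.rpow_mul hx0.le] at f2
        have f3 : ε₀ / 3 * (3 / ε₀) = 1 := by field_simp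
        rwa [f3, Real.rpow_one] at f2
      have hy1 : (1 : ℝ) ≤ y := hx13'.trans hy
      calc (x : ℝ) ^ K ≤ ((y : ℝ) ^ (3 / ε₀)) ^ K := pow_le_pow_left₀ hx0.le f1 K
        _ = (y : ℝ) ^ (3 * K / ε₀) := by
            rw [← Real.rpow_natCast, ← Real.rpow_mul hy0.le]; congr 1; ring
        _ ≤ (y : ℝ) ^ ((⌈3 * K / ε₀⌉₊ : ℕ) : ℝ) := Real.rpow_le_rpow_of_exponent_le hy1 (Nat.le_ceil _)
        _ = (y : ℝ) ^ ⌈3 * K / ε₀⌉₊ := Real.rpow_natCast _ _
    have h1 := hM y c1 q c2 ξ hξ i₁ i hi₁ hi κ t hX (hκ.trans hxK) (ht.trans hxK)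
    have h2 : ∑ n ∈ Ioc 0 y, cv (mg g) (mg h) n * nit t n = ∑ z ∈ FF y, (mue z : ℂ) * HX ξ i₁ i κ z * nit t (nn z) := by
      rw [← hSRF.1 (fun z => (mue z : ℂ) * HX ξ i₁ i κ z * nit t (nn z)) y]
      refine sum_congr rfl fun n hn => ?_
      rw [← hmu n (mem_Ioc.1 hn).1]
      unfold rf
      rw [sum_mul]
      refine sum_congr rfl fun z hz => ?_
      rw [mem_filter] at hz
      show (mue z : ℂ) * HX ξ i₁ i κ z * nit t (n : ℝ) = (mue z : ℂ) * HX ξ i₁ i κ z * nit t (nn z : ℝ)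
      rw [hz.2]
    rw [h2]
    refine h1.trans ?_
    rw [div_eq_mul_one_div]
    refine mul_le_mul_of_nonneg_left ?_ hy0.le
    refine one_div_le_one_div_of_le (by positivity) ?_
    have f1 : L ^ (A + 8) * (3 / ε₀) ^ (A + 9) ≤ Real.log y ^ (A + 9) * (3 / ε₀) ^ (A + 9) := by
      calc L ^ (A + 8) * (3 / ε₀) ^ (A + 9) ≤ L ^ (A + 8) * L := mul_le_mul_of_nonneg_left hLA (by positivity)
        _ = L ^ (A + 9) := (pow_succ _ _).symm
        _ ≤ (3 / ε₀ * Real.log y) ^ (A + 9) := pow_le_pow_left₀ hL0.le hLy _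
        _ = Real.log y ^ (A + 9) * (3 / ε₀) ^ (A + 9) := by rw [mul_pow]; ring
    exact le_of_mul_le_mul_right f1 (by positivity)
  -- the partial sums of the rough Moebius function
  have h2e0 : (0 : ℝ) < N := (Real.rpow_pos_of_pos hx0 _).trans_le hN1
  have he2 : (N : ℝ) ≤ (x : ℝ) ^ 4 := by exact_mod_cast hNN.trans hN4
  have hS : ∀ u : ℕ, u ≤ 2 * N → ‖∑ n ∈ Ioc 0 u, cv (mg (rg Z g)) (mg (rg Z h)) n * nit t n‖ ≤ 1 / 2 * (N / L ^ A) := by
    intro u hu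
    have hur : (u : ℝ) ≤ 2 * N := by exact_mod_cast hu
    by_cases hu0 : u = 0
    · subst hu0
      rw [Ioc_self, sum_empty, norm_zero]
      positivity
    have hu1 : (1 : ℝ) ≤ u := by
      have : 1 ≤ u := Nat.one_le_iff_ne_zero.2 hu0
      exact_mod_cast this
    have hlogu : 1 + Real.log u ≤ 6 * L := by
      have f1 : (u : ℝ) ≤ 2 * (x : ℝ) ^ 4 := by linarith
      have f2 := Real.log_le_log (by linarith) f1
      rw [Real.log_mul (by norm_num) (by positivity), Real.log_pow] at f2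
      have f3 := Real.log_two_lt_d9
      push_cast at f2
      linarith
    by_cases hc : (u : ℝ) ≤ 2 * (x : ℝ) ^ (5 * ε₀ / 6)
    · refine (SUM_triv (SUM_rg hg) (SUM_rg hh) t u).trans ?_
      have f0 : (x : ℝ) ^ ε₀ = (x : ℝ) ^ (5 * ε₀ / 6) * (x : ℝ) ^ (ε₀ / 6) := by
        rw [← Real.rpow_add hx0]; congr 1; ring
      have f1 : 0 < (x : ℝ) ^ (5 * ε₀ / 6) := Real.rpow_pos_of_pos hx0 _
      calc (u : ℝ) * (1 + Real.log u) ≤ 2 * (x : ℝ) ^ (5 * ε₀ / 6) * (6 * L) := by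
            refine mul_le_mul hc hlogu ?_ (by positivity)
            have := Real.log_nonneg hu1
            linarith
        _ ≤ 1 / 2 * (N / L ^ A) := by
            rw [mul_div_assoc', le_div_iff₀ (by positivity)]
            calc 2 * (x : ℝ) ^ (5 * ε₀ / 6) * (6 * L) * L ^ A = 1 / 2 * ((x : ℝ) ^ (5 * ε₀ / 6) * (24 * L ^ (A + 1))) := by
                  rw [pow_succ]; ring
              _ ≤ 1 / 2 * ((x : ℝ) ^ (5 * ε₀ / 6) * (x : ℝ) ^ (ε₀ / 6)) := by
                  refine mul_le_mul_of_nonneg_left (mul_le_mul_of_nonneg_left hpow f1.le) (by norm_num)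
              _ = 1 / 2 * (x : ℝ) ^ ε₀ := by rw [f0]
              _ ≤ 1 / 2 * N := mul_le_mul_of_nonneg_left hN1 (by norm_num)
    · rw [not_le] at hc
      have hmain := SUM_sum (Z := Z) (t := t) (W := C * L) (X₀ := X₀) (s := 6 / L ^ (A + 8)) hg hh hZ8 u (by positivity)
        (hSM1 Z g h hg hh) (hW u) ?_ ?_
      · refine hmain.trans ?_
        have f1 : (u : ℝ) * (6 / L ^ (A + 8)) * (C * L) = (12 * C / L ^ 7) * (1 / 2 * (u / L ^ A)) := by
          have : L ^ (A + 8) = L ^ A * L ^ 7 * L := by rw [← pow_add, ← pow_succ]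
          rw [this]
          field_simp
          ring
        rw [f1]
        have f2 : 12 * C / L ^ 7 ≤ 1 / 2 := by
          rw [div_le_iff₀ (by positivity)]
          have : L ^ 1 ≤ L ^ 7 := pow_le_pow_right₀ hL1 (by norm_num)
          rw [pow_one] at this
          linarith
        calc (12 * C / L ^ 7) * (1 / 2 * (u / L ^ A)) ≤ 1 / 2 * (1 / 2 * ((2 * N) / L ^ A)) := by
              refine mul_le_mul f2 ?_ (by positivity) (by norm_num)
              refine mul_le_mul_of_nonneg_left ?_ (by norm_num)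
              exact div_le_div_of_nonneg_right hur (by positivity)
          _ = 1 / 2 * (N / L ^ A) := by ring
      · intro y hy _
        refine (hT y hy).trans ?_
        refine mul_le_mul_of_nonneg_left ?_ (Nat.cast_nonneg _)
        exact div_le_div_of_nonneg_right (by norm_num) (by positivity)
      · intro b hb1 hbu hlt
        have hbr : (1 : ℝ) ≤ b := by exact_mod_cast hb1
        have hb0 : (0 : ℝ) < b := by linarith
        -- b is large
        have f1 : (u : ℝ) < b * (2 * X₀) := by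
          have g1 : u < b * (u / b + 1) := Nat.lt_mul_div_succ u (by omega)
          have g2 : (u : ℝ) < b * (((u / b : ℕ) : ℝ) + 1) := by exact_mod_cast g1
          have g3 : (b : ℝ) * (((u / b : ℕ) : ℝ) + 1) ≤ b * (2 * X₀) := by
            refine mul_le_mul_of_nonneg_left ?_ hb0.le
            linarith
          linarith
        have f2 : (x : ℝ) ^ (5 * ε₀ / 6) = (x : ℝ) ^ (ε₀ / 2) * X₀ := by
          rw [hX₀, ← Real.rpow_add hx0]; congr 1; ring
        have f3 : (x : ℝ) ^ (ε₀ / 2) ≤ b := by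
          rw [f2] at hc
          have g1 : (x : ℝ) ^ (ε₀ / 2) * X₀ ≤ b * X₀ := by nlinarith
          exact le_of_mul_le_mul_right g1 hX₀0
        have f4 : L ^ (A + 9) ≤ (b : ℝ) ^ (1 / Real.log Z) := by
          have g1 : ((x : ℝ) ^ (ε₀ / 2)) ^ (1 / Real.log Z) ≤ (b : ℝ) ^ (1 / Real.log Z) :=
            Real.rpow_le_rpow (Real.rpow_nonneg hx0.le _) f3 (by positivity)
          refine le_trans ?_ g1
          rw [← Real.rpow_mul hx0.le, Real.rpow_def_of_pos hx0, ← hLdef]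
          have g2 : L ^ (A + 9) = Real.exp ((A + 9 : ℕ) * Real.log L) := by
            rw [← Real.rpow_natCast, Real.rpow_def_of_pos hL0, mul_comm]
          rw [g2, Real.exp_le_exp]
          have g3 : L * (ε₀ / 2 * (1 / Real.log Z)) = ε₀ * L / (2 * Real.log Z) := by field_simp
          rw [g3, le_div_iff₀ (by positivity)]
          push_cast
          calc ((A : ℝ) + 9) * Real.log L * (2 * Real.log Z) ≤ ((A : ℝ) + 9) * Real.log L * (2 * (C₀ * Real.log L)) := by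
                refine mul_le_mul_of_nonneg_left (by linarith) (by positivity)
            _ = 2 * (A + 9) * C₀ * Real.log L ^ 2 := by ring
            _ ≤ ε₀ * L := hL2
        calc 1 + Real.log u ≤ 6 * L := hlogu
          _ = 6 / L ^ (A + 8) * L ^ (A + 9) := by
              rw [show L ^ (A + 9) = L ^ (A + 8) * L from pow_succ _ _, ← mul_assoc, div_mul_cancel₀ _ (by positivity)]
          _ ≤ 6 / L ^ (A + 8) * (b : ℝ) ^ (1 / Real.log Z) := mul_le_mul_of_nonneg_left f4 (by positivity)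
  rw [SUM_shell _ _ t hNN hSIZ, SUM_FF hSRF t N' hmu, SUM_FF hSRF t N hmu]
  refine (norm_sub_le _ _).trans ?_
  have s1 := hS N' hN2
  have s2 := hS N (by omega)
  linarith

end Pool.Agent.EU
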